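import Pool.Agent.Lib.MP_acafa7_al.F.IfaceG
import Pool.Agent.Lib.MP_acafa7_al.F.H03.Halg

/-! PEX: labelled planar maps with a given null-homotopic boundary walk exist, also minimal
ones. -/

namespace MSG.F23

open Classical

/-- there is a map with boundary walk `w` -/
def Ex {V : Type} (G : SimpleGraph V) (w : List V) : Prop :=
  ∃ (D : Type) (_ : Fintype D) (M : PMap V D) (R : List D), IsPF G M R w

/-- the reverse of an elementary homotopy -/
theorem stp_rev {V : Type} {G : SimpleGraph V} {l l' : List V} {e : ℤ}
    (h : StpA G Set.univ (fun _ _ _ => (0 : ℤ)) l l' e) :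
    Stp G Set.univ (fun _ _ _ => (0 : ZMod 2)) l' l 0 := by
  cases h with
  | ins u v x y hxy _ => exact Stp.del u v x y hxy
  | del u v x y hxy => exact Stp.ins u v x y hxy (Set.mem_univ _)
  | exp u v x y z h1 h2 h3 _ => exact Stp.con u v x y z h1 h2 h3
  | con u v x y z h1 h2 h3 => exact Stp.exp u v x y z h1 h2 h3 (Set.mem_univ _)

/-- the map with one edge -/
def edgeMap {V : Type} (x y : V) : PMap V Bool where
  φ := Equiv.boolNot
  ι := Equiv.boolNot
  ιι d := by simp
  ne d := by cases d <;> simp
  f d := if d then x else y
  tgt _ := rfl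

theorem ex_edge {V : Type} {G : SimpleGraph V} {x y : V} (h : G.Adj x y) : Ex G [x, y, x] := by
  refine ⟨Bool, inferInstance, edgeMap x y, [true, false], ?_, ?_, ?_, ?_, ?_⟩
  · intro k _
    refine ⟨k, fun d => rfl, fun d => ?_⟩
    rw [CharTwo.add_self_eq_zero, CharTwo.add_self_eq_zero]
  · intro d
    cases d
    · exact h.symm
    · exact h
  · refine ⟨by simp, by simp, ?_⟩
    rfl
  · refine ⟨fun d _ => ?_, fun d hd => ?_⟩
    · show (edgeMap x y).φ d ∈ [true, false]
      cases (edgeMap x y).φ d <;> simp
    · exfalso
      apply hd
      show d ∈ [true, false]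
      cases d <;> simp
  · rfl

theorem isW_one {V : Type} {G : SimpleGraph V} {x a : V} (h : IsW G x x [a]) : a = x := by
  have := h.first
  simpa using this

/-- a step to a walk with at most two vertices starts from a backtrack -/
theorem short {V : Type} {G : SimpleGraph V} {x : V} {w w' : List V} {e : ℤ}
    (h : StpA G Set.univ (fun _ _ _ => (0 : ℤ)) w w' e) (hw' : IsW G x x w')
    (h3 : 3 ≤ w.length) (h2 : w'.length < 3) : ∃ y, G.Adj x y ∧ w = [x, y, x] := by
  have hch := hw'.chain
  have hfi := hw'.first
  have hla := hw'.last
  cases h with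
  | ins u v a b hab _ =>
    simp at h3 h2
    omega
  | del u v a b hab =>
    cases u with
    | nil =>
      cases v with
      | nil =>
        simp at hfi
        subst hfi
        exact ⟨b, hab, rfl⟩
      | cons c v =>
        exfalso
        cases v with
        | nil =>
          simp at hfi hla hch
          subst hfi
          subst hla
          exact G.loopless.irrefl _ hch
        | cons d v =>
          simp at h2
          omega
    | cons c u =>
      exfalso
      cases u with
      | nil =>
        cases v with
        | nil =>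
          simp at hfi hla hch
          subst hfi
          subst hla
          exact G.loopless.irrefl _ hch
        | cons d v =>
          simp at h2
          omega
      | cons d u =>
        simp at h2
        omega
  | exp u v a b c h1 h2' h3' _ =>
    simp at h3 h2
    omega
  | con u v a b c h1 h2' h3' =>
    exfalso
    cases u with
    | nil =>
      cases v with
      | nil =>
        simp at hfi hla hch
        subst hfi
        subst hla
        exact G.loopless.irrefl _ hch
      | cons d v =>
        simp at h2
        omega
    | cons d u =>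
      simp at h2
      omega

theorem ex_of_hom (pstep : PStepStatement) {V : Type} {G : SimpleGraph V} {x : V} {w l : List V}
    {e : ℤ} (h : HomA G Set.univ (fun _ _ _ => (0 : ℤ)) w l e) (hl : l = [x]) :
    IsW G x x w → 3 ≤ w.length → Ex G w := by
  induction h with
  | refl l =>
    intro _ h3
    rw [hl] at h3
    simp at h3
  | @step w w' l e e' hs _ ih =>
    intro hw h3
    have hw' : IsW G x x w' := F03.homA_isW (HomA.step hs (HomA.refl w')) hw
    by_cases h2 : 3 ≤ w'.length
    · obtain ⟨D, hD, M, R, hM⟩ := ih hl hw' h2
      obtain ⟨D', hD', M', R', hM', _⟩ := pstep V D G Set.univ M R w' w 0 hM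
        (fun _ => Set.mem_univ _) (stp_rev hs) h3
      exact ⟨D', hD', M', R', hM'⟩
    · obtain ⟨y, hy, rfl⟩ := short hs hw' h3 (by omega)
      exact ex_edge hy

theorem pex_st (pstep : PStepStatement) : PExStatement := by
  intro V G x w hw h3 hh
  have hex : ∃ n : ℕ, ∃ (D : Type) (_ : Fintype D) (M : PMap V D) (R : List D),
      IsPF G M R w ∧ Fintype.card D = n := by
    obtain ⟨D, hD, M, R, hM⟩ := ex_of_hom pstep hh rfl hw h3
    exact ⟨_, D, hD, M, R, hM, rfl⟩
  obtain ⟨D, hD, M, R, hM, hc⟩ := Nat.find_spec hex
  refine ⟨D, hD, M, R, hM, ?_⟩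
  intro D' _ M' R' hM'
  rw [hc]
  exact Nat.find_min' hex ⟨D', _, M', R', hM', rfl⟩

end MSG.F23
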